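import Pool.Agent.Run7.h325.HRT.Stm

/-!
# Project HRT (helper325), piece APROP: elementary facts on the numbers `Am m`
-/

set_option autoImplicit false
set_option linter.all false

namespace Pool.Agent.Run7.h216.HRT

open Pool.Agent.Run7.h325.HRT

theorem f_succ (m q : ℕ) : f m (q + 1) = 1024 * f m q := by
  unfold f
  rw [pow_succ]
  ring

theorem f_pos (m q : ℕ) (hm : 1 ≤ m) : 1 ≤ f m q := by
  unfold f
  have : 0 < m * 1024 ^ q := Nat.mul_pos (by omega) (by positivity)
  omega

theorem f_add (m q r : ℕ) (hm : 1 ≤ m) : f m q + r ≤ f m (q + r) := by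
  induction r with
  | zero => simp
  | succ r ih =>
    have h1 := f_succ m (q + r)
    have h2 := f_pos m (q + r) hm
    rw [← add_assoc q r 1, h1]
    omega

theorem F_summable (m : ℕ) (hm : 1 ≤ m) : Summable (fun i : ℕ => ((5 : ℝ) ^ f m i)⁻¹) := by
  refine Summable.of_nonneg_of_le (fun i => by positivity) (fun i => ?_)
    (summable_geometric_of_lt_one (r := (1 / 5 : ℝ)) (by norm_num) (by norm_num))
  rw [one_div, inv_pow]
  refine inv_anti₀ (by positivity) (pow_le_pow_right₀ (by norm_num) ?_)
  have := f_add m 0 i hm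
  rw [zero_add] at this
  omega

theorem t_APROP : S_APROP := by
  intro m hm
  set F : ℕ → ℝ := fun i => ((5 : ℝ) ^ f m i)⁻¹ with hF
  have hs : Summable F := F_summable m hm
  have hFpos : ∀ i, 0 < F i := fun i => by rw [hF]; positivity
  have hAm : Am m = ∑' i, F i := rfl
  have h15 : Summable (fun i : ℕ => (1 / 5 : ℝ) ^ i) :=
    summable_geometric_of_lt_one (by norm_num) (by norm_num)
  have hg : ∑' i : ℕ, (1 / 5 : ℝ) ^ i = 5 / 4 := by
    rw [tsum_geometric_of_lt_one (by norm_num) (by norm_num)]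
    norm_num
  have hA1 : Am m ≤ 1 / 4 := by
    have h1 : ∀ i, F i ≤ (1 / 5) * (1 / 5 : ℝ) ^ i := by
      intro i
      rw [← pow_succ', hF, one_div, inv_pow]
      refine inv_anti₀ (by positivity) (pow_le_pow_right₀ (by norm_num) ?_)
      have := f_add m 0 i hm
      have h0 := f_pos m 0 hm
      rw [zero_add] at this
      omega
    rw [hAm]
    refine (hs.tsum_le_tsum h1 (h15.mul_left _)).trans ?_
    rw [tsum_mul_left, hg]
    norm_num
  have hA0 : 0 < Am m := by
    rw [hAm]
    exact hs.tsum_pos (fun i => (hFpos i).le) 0 (hFpos 0)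
  refine ⟨hA0, hA1, fun q => ?_⟩
  -- the tail
  have hsplit := hs.sum_add_tsum_nat_add (q + 1)
  set T : ℝ := ∑' i, F (i + (q + 1)) with hT
  have hTs : Summable (fun i => F (i + (q + 1))) := (summable_nat_add_iff (q + 1)).2 hs
  have hiq : (iq m q : ℝ) / (Nq m q : ℝ) = ∑ p ∈ Finset.range (q + 1), F p := by
    unfold iq Nq
    push_cast
    rw [Finset.sum_div]
    refine Finset.sum_congr rfl fun p hp => ?_
    have hpq : f m p ≤ f m q := by
      have hp' := Finset.mem_range.1 hp
      have := f_add m p (q - p) hm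
      rw [show p + (q - p) = q by omega] at this
      omega
    rw [hF]
    have h5 : (5 : ℝ) ^ f m q = 5 ^ (f m q - f m p) * 5 ^ f m p := by
      rw [← pow_add, Nat.sub_add_cancel hpq]
    rw [h5]
    field_simp
  have hrho : rho m q = T := by
    unfold rho
    rw [hiq, hAm]
    linarith
  have hup : T ≤ 5 / 4 * F (q + 1) := by
    have h1 : ∀ i, F (i + (q + 1)) ≤ F (q + 1) * (1 / 5 : ℝ) ^ i := by
      intro i
      rw [hF]
      simp only
      rw [one_div, inv_pow, ← mul_inv, ← pow_add]
      refine inv_anti₀ (by positivity) (pow_le_pow_right₀ (by norm_num) ?_)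
      have := f_add m (q + 1) i hm
      rw [add_comm i (q + 1)]
      exact this
    refine (hTs.tsum_le_tsum h1 (h15.mul_left _)).trans ?_
    rw [tsum_mul_left, hg]
    linarith
  have hlo : F (q + 1) < T := by
    have h1 := hTs.sum_le_tsum (Finset.range 2) (fun i _ => (hFpos _).le)
    rw [Finset.sum_range_succ, Finset.sum_range_succ, Finset.sum_range_zero] at h1
    have h2 := hFpos (1 + (q + 1))
    rw [zero_add, zero_add] at h1
    linarith
  refine ⟨?_, ?_, ?_, ?_, ?_, ?_, ?_⟩
  · rw [hrho]; exact hlo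
  · rw [hrho]; exact hup
  · unfold iq
    rw [Finset.sum_range_succ, Nat.sub_self, pow_zero]
    have h5 : 5 ∣ ∑ p ∈ Finset.range q, 5 ^ (f m q - f m p) := by
      refine Finset.dvd_sum fun p hp => ?_
      have hp' := Finset.mem_range.1 hp
      have h1 := f_add m p (q - p) hm
      rw [show p + (q - p) = q by omega] at h1
      exact dvd_pow_self 5 (by omega)
    omega
  · have h1 : (iq m q : ℝ) / (Nq m q : ℝ) ≤ 1 / 4 := by
      have : rho m q = Am m - (iq m q : ℝ) / (Nq m q : ℝ) := rfl
      have h2 : 0 < rho m q := by rw [hrho]; exact (hFpos _).trans hlo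
      linarith
    have hN : (0 : ℝ) < (Nq m q : ℝ) := by unfold Nq; positivity
    rw [div_le_iff₀ hN] at h1
    have : (4 : ℝ) * (iq m q : ℝ) ≤ (Nq m q : ℝ) := by linarith
    exact_mod_cast this
  · intro hq
    have h1 : 5 ^ (f m q - f m 0) ≤ iq m q := by
      unfold iq
      exact Finset.single_le_sum (f := fun p => 5 ^ (f m q - f m p)) (fun _ _ => Nat.zero_le _)
        (Finset.mem_range.2 (by omega))
    have h2 : 5 ≤ f m q - f m 0 := by
      obtain ⟨r, rfl⟩ : ∃ r, q = r + 1 := ⟨q - 1, by omega⟩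
      have h3 := f_succ m r
      have h4 := f_pos m 0 hm
      have h5 := f_add m 0 r hm
      rw [zero_add] at h5
      omega
    have h3 : 5 ^ 5 ≤ 5 ^ (f m q - f m 0) := Nat.pow_le_pow_right (by norm_num) h2
    omega
  · rw [f_succ]; omega
  · unfold Nq
    rw [Nat.pow_mod]
    norm_num

end Pool.Agent.Run7.h216.HRT
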