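import Pool.Agent.Run7.h325.HRT.Stm

/-!
# Project HRT (helper325), piece TAIL: the truncation error
-/

set_option autoImplicit false
set_option linter.all false

open scoped Classical

namespace Pool.Agent.Run7.h216.HRT

open Pool.Agent.Run7.h325.HRT

/-- A separated set of indices has few elements. -/
theorem card_sep (n R : ℕ) (hR : 1 ≤ R) (B : Finset ℕ) (hB : B ⊆ Finset.range n)
    (hsep : ∀ k ∈ B, ∀ k' ∈ B, k < k' → R < 10 * (k' - k)) : (B.card : ℝ) ≤ 10 * ((n : ℝ) / R) + 1 := by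
  have h1 : B.card ≤ (Finset.range (10 * n / R + 1)).card := by
    refine Finset.card_le_card_of_injOn (fun k => 10 * k / R) ?_ ?_
    · intro k hk
      have hk' := Finset.mem_range.1 (hB hk)
      simp only [Finset.coe_range, Set.mem_Iio]
      have : 10 * k / R ≤ 10 * n / R := Nat.div_le_div_right (by omega)
      omega
    · intro k hk k' hk' heq
      simp only at heq
      have key : ∀ a ∈ B, ∀ b ∈ B, 10 * a / R = 10 * b / R → ¬ a < b := by
        intro a ha b hb hab hlt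
        have h2 := hsep a ha b hb hlt
        have h3 := Nat.div_add_mod (10 * a) R
        have h4 := Nat.div_add_mod (10 * b) R
        have h5 := Nat.mod_lt (10 * a) (show R > 0 by omega)
        have h6 := Nat.mod_lt (10 * b) (show R > 0 by omega)
        rw [hab] at h3
        set s := R * (10 * b / R) with hs
        omega
      have h7 := key k hk k' hk' heq
      have h8 := key k' hk' k hk heq.symm
      omega
  rw [Finset.card_range] at h1
  have h2 : ((10 * n / R : ℕ) : ℝ) ≤ ((10 * n : ℕ) : ℝ) / R := Nat.cast_div_le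
  have h3 : (B.card : ℝ) ≤ ((10 * n / R + 1 : ℕ) : ℝ) := by exact_mod_cast h1
  push_cast at h2 h3
  have h4 : (10 * (n : ℝ)) / R = 10 * ((n : ℝ) / R) := by ring
  linarith

/-- Powers of a number slightly less than one. -/
theorem pow_small (z α : ℝ) (hz0 : 0 ≤ z) (hα : 0 < α) (R : ℕ) (hR : 1 ≤ R)
    (hz : α * (1 / (R : ℝ)) ^ 2 ≤ 1 - z) :
    2 * z ^ (R ^ 4 + 1) / (1 - z) ≤ 4 / α ^ 3 * (1 / R) := by
  have hR0 : (0 : ℝ) < R := by exact_mod_cast hR
  have hR1 : (1 : ℝ) ≤ R := by exact_mod_cast hR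
  set u : ℝ := 1 - z with hu
  have hu1 : α * (1 / (R : ℝ)) ^ 2 ≤ u := hz
  have hup : 0 < u := lt_of_lt_of_le (by positivity) hu1
  have hzu : z = 1 - u := by rw [hu]; ring
  have hu_le : u ≤ 1 := by rw [hu]; linarith
  set M : ℝ := (R : ℝ) ^ 4 with hM
  have hMpos : 0 < M := by positivity
  have h1 : z ^ (R ^ 4 + 1) ≤ Real.exp (-(u * M)) := by
    have h2 : z ≤ Real.exp (-u) := by
      have := Real.add_one_le_exp (-u)
      rw [hzu]; linarith
    have h3 : z ^ (R ^ 4 + 1) ≤ z ^ (R ^ 4) :=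
      pow_le_pow_of_le_one hz0 (by rw [hzu]; linarith) (Nat.le_succ _)
    have h4 : z ^ (R ^ 4) ≤ Real.exp (-u) ^ (R ^ 4) := pow_le_pow_left₀ hz0 h2 _
    rw [← Real.exp_nat_mul] at h4
    refine (h3.trans h4).trans (le_of_eq ?_)
    congr 1
    rw [hM]
    push_cast
    ring
  have h5 : Real.exp (-(u * M)) ≤ 2 / (u * M) ^ 2 := by
    have hs : 0 < u * M := by positivity
    have h6 := Real.quadratic_le_exp_of_nonneg hs.le
    rw [Real.exp_neg, inv_eq_one_div, div_le_div_iff₀ (Real.exp_pos _) (by positivity)]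
    nlinarith
  have h7 : α ^ 3 * (1 / (R : ℝ)) ^ 6 ≤ u ^ 3 := by
    have := pow_le_pow_left₀ (show 0 ≤ α * (1 / (R : ℝ)) ^ 2 by positivity) hu1 3
    calc α ^ 3 * (1 / (R : ℝ)) ^ 6 = (α * (1 / (R : ℝ)) ^ 2) ^ 3 := by ring
      _ ≤ u ^ 3 := this
  have h8 : 2 * z ^ (R ^ 4 + 1) / u ≤ 4 / (u ^ 3 * M ^ 2) := by
    have h9 : 2 * z ^ (R ^ 4 + 1) / u ≤ 2 * (2 / (u * M) ^ 2) / u := by
      refine div_le_div_of_nonneg_right ?_ hup.le
      linarith [h1.trans h5]
    refine h9.trans (le_of_eq ?_)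
    field_simp
    ring
  refine h8.trans ?_
  have h10 : α ^ 3 * (1 / (R : ℝ)) ^ 6 * M ^ 2 ≤ u ^ 3 * M ^ 2 :=
    mul_le_mul_of_nonneg_right h7 (by positivity)
  have h11 : α ^ 3 * (1 / (R : ℝ)) ^ 6 * M ^ 2 = α ^ 3 * (R : ℝ) ^ 2 := by
    rw [hM]
    field_simp
  rw [h11] at h10
  have h12 : 4 / (u ^ 3 * M ^ 2) ≤ 4 / (α ^ 3 * (R : ℝ) ^ 2) :=
    div_le_div_of_nonneg_left (by norm_num) (by positivity) h10
  refine h12.trans ?_
  have h13 : α ^ 3 * (R : ℝ) ≤ α ^ 3 * (R : ℝ) ^ 2 := by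
    refine mul_le_mul_of_nonneg_left ?_ (by positivity)
    nlinarith
  have h14 : 4 / (α ^ 3 * (R : ℝ) ^ 2) ≤ 4 / (α ^ 3 * (R : ℝ)) :=
    div_le_div_of_nonneg_left (by norm_num) (by positivity) h13
  refine h14.trans (le_of_eq ?_)
  field_simp

theorem t_TAIL (hD : S_DIO0) (hW : S_WNORM) (hS : S_SER) : S_TAIL := by
  intro A x hA0 hA1 hgood
  obtain ⟨c, hc, hgd⟩ := hgood
  set α : ℝ := 8 * A * (1 - A) with hα
  have hαp : 0 < α := by
    rw [hα]
    have : 0 < 1 - A := by linarith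
    positivity
  set C0 : ℝ := |Real.log (α * c ^ 2)| with hC0
  have hC00 : 0 ≤ C0 := abs_nonneg _
  set C1 : ℝ := 8 + C0 with hC1
  have hC10 : 0 ≤ C1 := by linarith
  refine ⟨4 / α ^ 3 + 10 * C1, by positivity, ?_⟩
  intro n R hn hR
  have hR0 : (0 : ℝ) < R := by exact_mod_cast hR
  have hR1 : (1 : ℝ) ≤ R := by exact_mod_cast hR
  have hn1 : (1 : ℝ) ≤ n := by exact_mod_cast hn
  have hlogn : 0 ≤ Real.log n := Real.log_nonneg hn1
  have hlogR : 0 ≤ Real.log R := Real.log_nonneg hR1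
  set L : ℝ := 1 + Real.log n + Real.log R with hL
  have hL1 : 1 ≤ L := by rw [hL]; linarith
  set B : Finset ℕ := (Finset.range n).filter
    (fun k => ∃ p : ℤ, |D * (x + k + 1 / 2) - p| < 1 / (R : ℝ)) with hB
  have hM1 : 1 ≤ R ^ 4 := Nat.one_le_pow _ _ hR
  -- the norm is less than one
  have hnorm : ∀ k : ℕ, α * (c / ((k : ℝ) + 1) ^ 2) ^ 2 ≤ 1 - ‖w A (x + k + 1 / 2)‖ := by
    intro k
    exact (hW A (x + k + 1 / 2) hA0 hA1).2.1 (c / ((k : ℝ) + 1) ^ 2) (by positivity) (hgd k)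
  have hnorm1 : ∀ k : ℕ, ‖w A (x + k + 1 / 2)‖ < 1 := by
    intro k
    have h1 := hnorm k
    have h2 : 0 < α * (c / ((k : ℝ) + 1) ^ 2) ^ 2 := by positivity
    linarith
  -- the bound of one term
  have hterm : ∀ k ∈ Finset.range n,
      |phi A (x + k + 1 / 2) - phiM A (R ^ 4) (x + k + 1 / 2)| ≤
        4 / α ^ 3 * (1 / R) + if (∃ p : ℤ, |D * (x + k + 1 / 2) - p| < 1 / (R : ℝ)) then C1 * L else 0 := by
    intro k hk
    have hk' : k + 1 ≤ n := Finset.mem_range.1 hk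
    obtain ⟨hs1, hs2⟩ := hS A (x + k + 1 / 2) (R ^ 4) hM1 (hnorm1 k)
    split_ifs with hb
    · refine hs2.trans ?_
      have hk1 : ((k : ℝ) + 1) ≤ n := by exact_mod_cast hk'
      have hk0 : (0 : ℝ) < (k : ℝ) + 1 := by positivity
      have h1 : Real.log (α * (c / ((k : ℝ) + 1) ^ 2) ^ 2) ≤ Real.log (1 - ‖w A (x + k + 1 / 2)‖) :=
        Real.log_le_log (by positivity) (hnorm k)
      have h2 : α * (c / ((k : ℝ) + 1) ^ 2) ^ 2 = (α * c ^ 2) / ((k : ℝ) + 1) ^ 4 := by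
        field_simp
      rw [h2, Real.log_div (by positivity) (by positivity), Real.log_pow] at h1
      have h3 : Real.log ((k : ℝ) + 1) ≤ Real.log n := Real.log_le_log hk0 hk1
      have h4 : -C0 ≤ Real.log (α * c ^ 2) := neg_abs_le _
      have h5 : Real.log ((R ^ 4 : ℕ) : ℝ) = 4 * Real.log R := by
        push_cast
        rw [Real.log_pow]
        norm_num
      rw [h5]
      have h6 : (0 : ℝ) ≤ 4 / α ^ 3 * (1 / R) := by positivity
      have h7 : C1 * L = (8 + C0) * L := by rw [hC1]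
      have h8 : C0 ≤ C0 * L := le_mul_of_one_le_right hC00 hL1
      have h9 : 8 * L = 8 + 8 * Real.log n + 8 * Real.log R := by rw [hL]; ring
      push_cast at h1
      nlinarith
    · rw [add_zero]
      refine hs1.trans ?_
      push_neg at hb
      have h1 := (hW A (x + k + 1 / 2) hA0 hA1).2.1 (1 / (R : ℝ)) (by positivity) hb
      exact pow_small _ α (norm_nonneg _) hαp R hR h1
  have hBcard : (B.card : ℝ) ≤ 10 * ((n : ℝ) / R) + 1 := by
    refine card_sep n R hR B (Finset.filter_subset _ _) ?_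
    intro k hk k' hk' hlt
    obtain ⟨p, hp⟩ := (Finset.mem_filter.1 hk).2
    obtain ⟨p', hp'⟩ := (Finset.mem_filter.1 hk').2
    have h1 : |D * (((k' : ℤ) - (k : ℤ) : ℤ) : ℝ) - ((p' - p : ℤ) : ℝ)| < 2 / R := by
      have e : D * (((k' : ℤ) - (k : ℤ) : ℤ) : ℝ) - ((p' - p : ℤ) : ℝ) =
          (D * (x + k' + 1 / 2) - p') - (D * (x + k + 1 / 2) - p) := by
        push_cast
        ring
      rw [e]
      refine lt_of_le_of_lt (abs_sub _ _) ?_
      have : (2 : ℝ) / R = 1 / R + 1 / R := by ring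
      linarith
    have hne : ((k' : ℤ) - (k : ℤ)) ≠ 0 := by omega
    have h2 := hD ((k' : ℤ) - (k : ℤ)) (p' - p) hne
    have h3 : |(((k' : ℤ) - (k : ℤ) : ℤ) : ℝ)| = ((k' - k : ℕ) : ℝ) := by
      rw [Nat.cast_sub hlt.le]
      push_cast
      rw [abs_of_nonneg]
      have : (k : ℝ) ≤ k' := by exact_mod_cast hlt.le
      linarith
    rw [h3] at h2
    have h4 : (0 : ℝ) < ((k' - k : ℕ) : ℝ) := by
      have : 0 < k' - k := by omega
      exact_mod_cast this
    have h5 : 1 / (5 * ((k' - k : ℕ) : ℝ)) < 2 / R := lt_of_le_of_lt h2 h1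
    rw [div_lt_div_iff₀ (by positivity) hR0] at h5
    have h6 : (R : ℝ) < ((10 * (k' - k) : ℕ) : ℝ) := by
      rw [Nat.cast_mul]
      push_cast
      linarith
    exact_mod_cast h6
  refine (Finset.sum_le_sum hterm).trans ?_
  rw [Finset.sum_add_distrib, ← Finset.sum_filter, Finset.sum_const, Finset.sum_const,
    Finset.card_range, nsmul_eq_mul, nsmul_eq_mul, ← hB]
  have hnR : 0 ≤ (n : ℝ) / R := by positivity
  have h1 : (B.card : ℝ) * (C1 * L) ≤ (10 * ((n : ℝ) / R) + 1) * (C1 * L) :=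
    mul_le_mul_of_nonneg_right hBcard (by positivity)
  have h2 : (10 * ((n : ℝ) / R) + 1) * (C1 * L) ≤ (10 * ((n : ℝ) / R + 1)) * (C1 * L) := by
    refine mul_le_mul_of_nonneg_right ?_ (by positivity)
    linarith
  have h3 : (n : ℝ) * (4 / α ^ 3 * (1 / R)) ≤ 4 / α ^ 3 * ((n : ℝ) / R + 1) * L := by
    have e : (n : ℝ) * (4 / α ^ 3 * (1 / R)) = 4 / α ^ 3 * ((n : ℝ) / R) := by ring
    rw [e]
    have h4 : 4 / α ^ 3 * ((n : ℝ) / R) ≤ 4 / α ^ 3 * ((n : ℝ) / R + 1) :=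
      mul_le_mul_of_nonneg_left (by linarith) (by positivity)
    exact h4.trans (le_mul_of_one_le_right (by positivity) hL1)
  have h5 : (4 / α ^ 3 + 10 * C1) * ((n : ℝ) / R + 1) * L =
      4 / α ^ 3 * ((n : ℝ) / R + 1) * L + (10 * ((n : ℝ) / R + 1)) * (C1 * L) := by ring
  rw [h5]
  linarith

end Pool.Agent.Run7.h216.HRT
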